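import Pool.Agent.H75.GW.FUN

/-!
# Module EA: boundedly many essential arcs
-/

set_option autoImplicit false

namespace Pool.Agent.H75.GW

open Pool.Agent.H55.GW

variable {W : Type} {D : W → W → Prop}

/-- `D` without the arc `x → y` -/
def cutArc (D : W → W → Prop) (x y : W) : W → W → Prop := fun u v => D u v ∧ ¬ (u = x ∧ v = y)

theorem cutArc_rev (x y : W) :
    (cutArc (fun u v => D v u) y x) = fun u v => cutArc D x y v u := by
  funext u v
  apply propext
  unfold cutArc
  constructor
  · rintro ⟨h1, h2⟩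
    exact ⟨h1, fun h => h2 ⟨h.2, h.1⟩⟩
  · rintro ⟨h1, h2⟩
    exact ⟨h1, fun h => h2 ⟨h.2, h.1⟩⟩

theorem use_arc {S : Set W} {a b x y : W} (h : RIn D S a b) :
    RIn (cutArc D x y) S a b ∨ (RIn (cutArc D x y) S a x ∧ RIn (cutArc D x y) S y b) := by
  obtain ⟨h1, h2⟩ := h
  induction h2 using Relation.ReflTransGen.head_induction_on with
  | refl => exact Or.inl (RIn.refl h1)
  | @head a c h3 h4 ih =>
    by_cases hac : a = x ∧ c = y
    · obtain ⟨rfl, rfl⟩ := hac
      rcases ih h3.2 with h | ⟨-, h⟩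
      · exact Or.inr ⟨RIn.refl h1, h⟩
      · exact Or.inr ⟨RIn.refl h1, h⟩
    · rcases ih h3.2 with h | ⟨h, h'⟩
      · exact Or.inl (RIn.head ⟨h3.1, hac⟩ h1 h)
      · exact Or.inr ⟨RIn.head ⟨h3.1, hac⟩ h1 h, h'⟩

/-- the data of an essential arc `x → y` -/
structure Dat (D : W → W → Prop) (x y : W) (C : Finset W) (X Y : Set W) (P : W → Set W)
    (P₀ : Set W) : Prop where
  hx : x ∉ C
  hy : y ∉ C
  sep : Sep (cutArc D x y) (C : Set W) X Y
  left : ∀ v ∈ C, ∃ a ∈ X, RIn (cutArc D x y) (P v) a v
  right : ∀ v ∈ C, ∃ b ∈ Y, RIn (cutArc D x y) (P v) v b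
  one : ∀ v ∈ C, ∀ z ∈ C, z ∈ P v → z = v
  left0 : ∃ a ∈ X, RIn (cutArc D x y) P₀ a x
  right0 : ∃ b ∈ Y, RIn (cutArc D x y) P₀ y b
  none0 : ∀ z ∈ C, z ∉ P₀
  dis : ∀ v ∈ C, ∀ v' ∈ C, v ≠ v' → Disjoint (P v) (P v')
  dis0 : ∀ v ∈ C, Disjoint (P v) P₀

theorem Dat.rev {x y : W} {C : Finset W} {X Y : Set W} {P : W → Set W} {P₀ : Set W}
    (h : Dat D x y C X Y P P₀) : Dat (fun u v => D v u) y x C Y X P P₀ where
  hx := h.hy
  hy := h.hx
  sep := by
    rw [cutArc_rev]
    exact sep_rev.2 h.sep
  left := by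
    intro v hv
    rw [cutArc_rev]
    obtain ⟨b, hb, hr⟩ := h.right v hv
    exact ⟨b, hb, hr.rev⟩
  right := by
    intro v hv
    rw [cutArc_rev]
    obtain ⟨b, hb, hr⟩ := h.left v hv
    exact ⟨b, hb, hr.rev⟩
  one := h.one
  left0 := by
    rw [cutArc_rev]
    obtain ⟨b, hb, hr⟩ := h.right0
    exact ⟨b, hb, hr.rev⟩
  right0 := by
    rw [cutArc_rev]
    obtain ⟨b, hb, hr⟩ := h.left0
    exact ⟨b, hb, hr.rev⟩
  none0 := h.none0
  dis := h.dis
  dis0 := h.dis0

theorem exists_dat {x y : W} {C : Finset W} {X Y : Set W} {s : ℕ} (hl : Lnk D s X Y)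
    (hC : Sep (cutArc D x y) (C : Set W) X Y) (hcard : C.card < s) :
    ∃ (P : W → Set W) (P₀ : Set W), Dat D x y C X Y P P₀ := by
  classical
  have hsx : Sep D ((insert x C : Finset W) : Set W) X Y := by
    intro a ha b hb hr
    refine hC a ha b hb (hr.mono ?_ ?_)
    · rintro u v huv hu -
      exact ⟨huv, fun h => hu (by simp [h.1])⟩
    · intro v hv hvC
      exact hv (by simp only [Finset.coe_insert]; exact Or.inr hvC)
  have hsy : Sep D ((insert y C : Finset W) : Set W) X Y := by
    intro a ha b hb hr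
    refine hC a ha b hb (hr.mono ?_ ?_)
    · rintro u v huv - hv
      exact ⟨huv, fun h => hv (by simp [h.2])⟩
    · intro v hv hvC
      exact hv (by simp only [Finset.coe_insert]; exact Or.inr hvC)
  have h1 := hl.le_card hsx
  have h2 := hl.le_card hsy
  have h3 := Finset.card_insert_le x C
  have h4 := Finset.card_insert_le y C
  have hx : x ∉ C := by
    intro h
    rw [Finset.insert_eq_of_mem h] at h1
    omega
  have hy : y ∉ C := by
    intro h
    rw [Finset.insert_eq_of_mem h] at h2
    omega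
  have hs : s = (insert x C : Finset W).card := by omega
  rw [hs] at hl
  obtain ⟨x', y', f, T, h5, h6, h7, h8, h9⟩ := lnk_cut hsx hl
  obtain ⟨j₀, hj₀⟩ := h8 x (Finset.mem_insert_self _ _)
  have hidx : ∀ v : W, ∃ j, v ∈ C → v = f j := by
    intro v
    by_cases hv : v ∈ C
    · obtain ⟨j, hj⟩ := h8 v (Finset.mem_insert_of_mem hv)
      exact ⟨j, fun _ => hj⟩
    · exact ⟨j₀, fun h => absurd h hv⟩
  choose idx hidx using hidx
  have hxP : ∀ v ∈ C, x ∉ T (idx v) := by
    intro v hv hxT
    have := h9 (idx v) x (Finset.mem_insert_self _ _) hxT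
    rw [← hidx v hv] at this
    exact hx (this ▸ hv)
  have hne : ∀ v ∈ C, idx v ≠ j₀ := by
    intro v hv h
    have h10 := hidx v hv
    rw [h, ← hj₀] at h10
    exact hx (h10 ▸ hv)
  have hnone : ∀ z ∈ C, z ∉ T j₀ := by
    intro z hz hzT
    have := h9 j₀ z (Finset.mem_insert_of_mem hz) hzT
    rw [← hj₀] at this
    exact hx (this ▸ hz)
  have harc := use_arc (x := x) (y := y) ((h5 j₀).2.2.1.trans (h5 j₀).2.2.2)
  have harc' : RIn (cutArc D x y) (T j₀) (x' j₀) x ∧ RIn (cutArc D x y) (T j₀) y (y' j₀) := by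
    rcases harc with h | h
    · refine absurd (h.mono_set ?_) (hC _ (h5 j₀).1 _ (h5 j₀).2.1)
      intro v hv hvC
      exact hnone v hvC hv
    · exact h
  refine ⟨fun v => T (idx v), T j₀, ?_⟩
  exact {
    hx := hx
    hy := hy
    sep := hC
    left := by
      intro v hv
      refine ⟨x' (idx v), (h5 _).1, ?_⟩
      have h10 := (h5 (idx v)).2.2.1
      rw [← hidx v hv] at h10
      refine h10.mono ?_ subset_rfl
      intro u w huw hu _
      exact ⟨huw, fun h => hxP v hv (h.1 ▸ hu)⟩
    right := by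
      intro v hv
      refine ⟨y' (idx v), (h5 _).2.1, ?_⟩
      have h10 := (h5 (idx v)).2.2.2
      rw [← hidx v hv] at h10
      refine h10.mono ?_ subset_rfl
      intro u w huw hu _
      exact ⟨huw, fun h => hxP v hv (h.1 ▸ hu)⟩
    one := by
      intro v hv z hz hzT
      have := h9 (idx v) z (Finset.mem_insert_of_mem hz) hzT
      rw [← hidx v hv] at this
      exact this
    left0 := ⟨x' j₀, (h5 j₀).1, harc'.1⟩
    right0 := ⟨y' j₀, (h5 j₀).2.1, harc'.2⟩
    none0 := hnone
    dis := by
      intro v hv v' hv' hvv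
      refine h6 _ _ fun h => hvv ?_
      rw [hidx v hv, hidx v' hv', h]
    dis0 := fun v hv => h6 _ _ (hne v hv) }

/-- a family of disjoint walks indexed by their starts -/
theorem lnk_of_family (Z : Finset W) (K : Set W) (S : W → Set W)
    (h : ∀ v ∈ Z, ∃ w ∈ K, RIn D (S v) v w)
    (hdis : ∀ v ∈ Z, ∀ v' ∈ Z, v ≠ v' → Disjoint (S v) (S v')) : Lnk D Z.card (Z : Set W) K := by
  classical
  have e : Fin Z.card ≃ Z := Z.equivFin.symm
  choose! w hw hr using h
  refine ⟨fun i => (e i : W), fun i => w (e i), fun i => S (e i), fun i =>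
    ⟨(e i).2, hw _ (e i).2, hr _ (e i).2⟩, ?_⟩
  intro i j hij
  exact hdis _ (e i).2 _ (e j).2 fun h => hij (e.injective (Subtype.ext h))

/-- the set of vertices that reach `Y` avoiding `C` -/
def back (D : W → W → Prop) (C : Finset W) (Y : Set W) : Set W :=
  {v | ∃ b ∈ Y, RIn D (C : Set W)ᶜ v b}

/-- the application of HEAD -/
theorem core (hHEAD : T_HEAD) {n : ℕ} {x y : Fin n → W} {C : Fin n → Finset W}
    {X Y : Fin n → Set W} {P : Fin n → W → Set W} {P₀ : Fin n → Set W} {G T K : Set W}
    (hdat : ∀ i, Dat D (x i) (y i) (C i) (X i) (Y i) (P i) (P₀ i))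
    (hG : G.Finite) (hT : T.Finite) (hYG : ∀ i, ∀ b ∈ Y i, b ∉ G)
    (hyG : ∀ i, y i ∈ G) (hxG : ∀ i, x i ∉ G)
    (hout : ∀ u v, u ∈ G → D u v → v ∈ G ∨ v ∈ T)
    (hK : ∀ i, K = T ∩ back (cutArc D (x i) (y i)) (C i) (Y i))
    (hback : ∀ i j, i < j → y j ∉ back (cutArc D (x i) (y i)) (C i) (Y i)) :
    n ≤ K.ncard := by
  classical
  by_cases hn : n = 0
  · omega
  have hKfin : K.Finite := by
    rw [hK ⟨0, by omega⟩]
    exact hT.subset Set.inter_subset_left
  refine hHEAD W D G K hG hKfin n y (fun i => (C i).filter (· ∈ G)) ?_ ?_ ?_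
  · intro i
    refine ⟨hyG i, ?_⟩
    intro v hv
    have : v ∈ (C i).filter (· ∈ G) := hv
    exact (Finset.mem_filter.1 this).2
  · intro i
    have hd := hdat i
    have hyC : y i ∉ (C i).filter (· ∈ G) := fun h => hd.hy (Finset.mem_filter.1 h).1
    have hfam := lnk_of_family (D := fun u v => D u v ∧ u ∈ G ∧ v ∈ G ∪ K)
      (insert (y i) ((C i).filter (· ∈ G))) K (fun v => if v = y i then P₀ i else P i v) ?_ ?_
    · rw [Finset.card_insert_of_notMem hyC, Finset.coe_insert] at hfam
      exact hfam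
    · intro v hv
      rcases Finset.mem_insert.1 hv with rfl | hv
      · -- the walk through the arc
        obtain ⟨b, hb, hr⟩ := hd.right0
        obtain ⟨u, w, h1, h2, h3, h4, h5⟩ := hr.enter (T := Gᶜ) (fun h => h (hyG i))
          (hYG i b hb)
        have huG : u ∈ G := not_not.1 h2
        have hwT : w ∈ T := by
          rcases hout u w huG h3.1 with h | h
          · exact absurd h h4
          · exact h
        have hwK : w ∈ K := by
          rw [hK i]
          exact ⟨hwT, b, hb, h5.mono_set fun z hz hzC => hd.none0 z hzC hz⟩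
        refine ⟨w, hwK, ?_⟩
        rw [if_pos rfl]
        refine RIn.tail (h1.mono ?_ ?_) ⟨h3.1, huG, Or.inr hwK⟩ h5.left_mem
        · intro a c hac ha hc
          exact ⟨hac.1, not_not.1 ha.2, Or.inl (not_not.1 hc.2)⟩
        · exact fun z hz => hz.1
      · obtain ⟨hvC, hvG⟩ := Finset.mem_filter.1 hv
        obtain ⟨b, hb, hr⟩ := hd.right v hvC
        obtain ⟨l, hl, hlP⟩ := hr.exists_path
        obtain ⟨u, w, h1, h2, h3, h4, h5⟩ := hl.rIn.enter (T := Gᶜ) (fun h => h hvG)
          (hYG i b hb)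
        have huG : u ∈ G := not_not.1 h2
        have hwl : w ∈ l := h5.left_mem
        have hwT : w ∈ T := by
          rcases hout u w huG h3.1 with h | h
          · exact absurd h h4
          · exact h
        have hwv : w ≠ v := by
          rintro rfl
          exact h4 hvG
        have hwK : w ∈ K := by
          rw [hK i]
          refine ⟨hwT, b, hb, (path_right hl hwl).mono_set ?_⟩
          rintro z ⟨hz, hzv⟩ hzC
          exact hwv (hzv (hd.one v hvC z hzC (hlP z hz)))
        have hvy : v ≠ y i := by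
          rintro rfl
          exact hd.hy hvC
        refine ⟨w, hwK, ?_⟩
        rw [if_neg hvy]
        refine RIn.tail (h1.mono ?_ ?_) ⟨h3.1, huG, Or.inr hwK⟩ (hlP w hwl)
        · intro a c hac ha hc
          exact ⟨hac.1, not_not.1 ha.2, Or.inl (not_not.1 hc.2)⟩
        · exact fun z hz => hlP z hz.1
    · intro v hv v' hv' hne
      rcases Finset.mem_insert.1 hv with rfl | hv
      · rcases Finset.mem_insert.1 hv' with rfl | hv'
        · exact absurd rfl hne
        · rw [if_pos rfl, if_neg hne.symm]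
          exact (hd.dis0 v' (Finset.mem_filter.1 hv').1).symm
      · have hvy : v ≠ y i := by
          rintro rfl
          exact hyC hv
        rcases Finset.mem_insert.1 hv' with rfl | hv'
        · rw [if_pos rfl, if_neg hvy]
          exact hd.dis0 v (Finset.mem_filter.1 hv).1
        · have hvy' : v' ≠ y i := by
            rintro rfl
            exact hyC hv'
          rw [if_neg hvy, if_neg hvy']
          exact hd.dis v (Finset.mem_filter.1 hv).1 v' (Finset.mem_filter.1 hv').1 hne
  · intro i j hij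
    rintro a rfl w hw hr
    have hwL : w ∈ back (cutArc D (x i) (y i)) (C i) (Y i) := by
      rw [hK i] at hw
      exact hw.2
    obtain ⟨b, hb, hr2⟩ := hwL
    have hnC : ∀ v, v ∈ G ∪ K → v ∉ (((C i).filter (· ∈ G) : Finset W) : Set W) → v ∉ C i := by
      intro v hv hv' hvC
      rcases hv with hv | hv
      · exact hv' (by
          rw [Finset.mem_coe]
          exact Finset.mem_filter.2 ⟨hvC, hv⟩)
      · rw [hK i] at hv
        obtain ⟨b', -, hr'⟩ := hv.2
        exact hr'.left_mem hvC
    have hwalk : RIn (cutArc D (x i) (y i)) ((C i : Finset W) : Set W)ᶜ (y j) w := by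
      refine hr.induct (p := fun v => RIn (cutArc D (x i) (y i)) ((C i : Finset W) : Set W)ᶜ
        (y j) v) ?_ ?_
      · exact RIn.refl (hnC _ (Or.inl (hyG j)) hr.left_mem)
      · intro u v hu hv huv hp
        refine hp.tail ⟨huv.1, fun h => hxG i (h.1 ▸ huv.2.1)⟩ ?_
        exact hnC v huv.2.2 hv
    exact hback i j hij ⟨b, hb, hwalk.trans hr2⟩

/-- the code of a subset of a finite set with at most `k` elements -/
noncomputable def code {k : ℕ} {T : Finset W} (ι : T ↪ Fin k) (L : Set W) : Finset (Fin k) := by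
  classical
  exact Finset.univ.filter (fun a : Fin k => ∃ t : T, ι t = a ∧ (t : W) ∈ L)

theorem code_eq {k : ℕ} {T : Finset W} (ι : T ↪ Fin k) {L L' : Set W}
    (h : code ι L = code ι L') : (T : Set W) ∩ L = (T : Set W) ∩ L' := by
  classical
  have key : ∀ {L L' : Set W}, code ι L = code ι L' → (T : Set W) ∩ L ⊆ (T : Set W) ∩ L' := by
    intro L L' h v hv
    have h1 : ι ⟨v, hv.1⟩ ∈ code ι L := by
      unfold code
      exact Finset.mem_filter.2 ⟨Finset.mem_univ _, ⟨v, hv.1⟩, rfl, hv.2⟩
    rw [h] at h1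
    unfold code at h1
    obtain ⟨-, t, ht, htL⟩ := Finset.mem_filter.1 h1
    have := ι.injective ht
    subst this
    exact ⟨hv.1, htL⟩
  exact Set.Subset.antisymm (key h) (key h.symm)

/-- **EA.** -/
theorem ea (hMEN : T_MEN) (hHEAD : T_HEAD) (hRAM : T_RAM) : T_EA := by
  classical
  intro k
  set c : ℕ := Fintype.card (Bool × Finset (Fin k) × Finset (Fin k)) with hc
  have enc : (Bool × Finset (Fin k) × Finset (Fin k)) ≃ Fin c := Fintype.equivFin _
  obtain ⟨N, hN⟩ := hRAM c (k + 2)
  refine ⟨N, ?_⟩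
  intro W D U A₀ B₀ G H T hU hDU hA hB hH hTk hGH hHT hHA hHB hGout hHin n x y hxy hne hess
  by_contra hlt
  -- the data
  have hdat : ∀ i, ∃ (C : Finset W) (X Y : Set W) (P : W → Set W) (P₀ : Set W),
      X ⊆ A₀ ∧ Y ⊆ B₀ ∧ Dat D (x i) (y i) C X Y P P₀ := by
    intro i
    obtain ⟨s, X, Y, hX, hY, hl, hnl⟩ := hess i
    have hC : ∃ C : Finset W, Sep (cutArc D (x i) (y i)) (C : Set W) X Y ∧ C.card < s := by
      by_contra hcon
      push Not at hcon
      exact hnl (hMEN W (cutArc D (x i) (y i)) U hU (fun u v h => hDU u v h.1) X Y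
        (hX.trans hA) (hY.trans hB) s hcon)
    obtain ⟨C, hC1, hC2⟩ := hC
    obtain ⟨P, P₀, hP⟩ := exists_dat hl hC1 hC2
    exact ⟨C, X, Y, P, P₀, hX, hY, hP⟩
  choose C X Y P P₀ hX hY hd using hdat
  set L : Fin n → Set W := fun i => back (cutArc D (x i) (y i)) (C i) (Y i) with hL
  set R : Fin n → Set W := fun i => back (cutArc (fun u v => D v u) (y i) (x i)) (C i) (X i)
    with hR
  have hιex : Nonempty (T ↪ Fin k) := by
    apply Function.Embedding.nonempty_of_card_le
    simpa using hTk
  obtain ⟨ι⟩ := hιex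
  have hNn : N ≤ n := by omega
  obtain ⟨g, hg, a, ha⟩ := hN (fun i j => enc (decide (y (Fin.castLE hNn j) ∈
    L (Fin.castLE hNn i)), code ι (L (Fin.castLE hNn i)), code ι (R (Fin.castLE hNn i))))
  set h : Fin (k + 2) → Fin n := fun i => Fin.castLE hNn (g i) with hh
  have hmono : ∀ i j : Fin (k + 2), i < j → h i < h j := by
    intro i j hij
    have := hg hij
    exact this
  have hcol : ∀ i j : Fin (k + 2), i < j → (decide (y (h j) ∈ L (h i)), code ι (L (h i)),
      code ι (R (h i))) = enc.symm a := by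
    intro i j hij
    rw [← ha i j hij, Equiv.symm_apply_apply]
  set e : Fin (k + 1) → Fin n := fun i => h i.castSucc with he
  have hlast : ∀ i : Fin (k + 1), i.castSucc < Fin.last (k + 1) := fun i =>
    Fin.castSucc_lt_last i
  have hcodeL : ∀ i : Fin (k + 1), code ι (L (e i)) = (enc.symm a).2.1 := by
    intro i
    have := hcol i.castSucc (Fin.last _) (hlast i)
    rw [← this]
  have hcodeR : ∀ i : Fin (k + 1), code ι (R (e i)) = (enc.symm a).2.2 := by
    intro i
    have := hcol i.castSucc (Fin.last _) (hlast i)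
    rw [← this]
  have hdec : ∀ i j : Fin (k + 1), i < j → decide (y (e j) ∈ L (e i)) = (enc.symm a).1 := by
    intro i j hij
    have := hcol i.castSucc j.castSucc (by simpa using hij)
    rw [← this]
  have hTfin : (T : Set W).Finite := T.finite_toSet
  have hbound : ∀ S : Set W, ((T : Set W) ∩ S).ncard ≤ k := by
    intro S
    calc ((T : Set W) ∩ S).ncard ≤ (T : Set W).ncard :=
          Set.ncard_le_ncard Set.inter_subset_left hTfin
      _ = T.card := Set.ncard_coe_finset T
      _ ≤ k := hTk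
  cases hcase : (enc.symm a).1 with
  | false =>
    -- `y j` is never in `L i`
    have hmain := core (D := D) hHEAD (x := fun i => x (e i)) (y := fun i => y (e i))
      (C := fun i => C (e i)) (X := fun i => X (e i)) (Y := fun i => Y (e i))
      (P := fun i => P (e i)) (P₀ := fun i => P₀ (e i)) (G := G) (T := (T : Set W))
      (K := (T : Set W) ∩ L (e 0)) (fun i => hd (e i)) (hU.subset (hGH.trans hH)) hTfin
      (fun i b hb hbG => Set.disjoint_left.1 hHB (hGH hbG) (hY _ hb))
      (fun i => (hxy _).2.2.1) (fun i => (hxy _).2.1) hGout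
      (fun i => code_eq ι (by rw [hcodeL, hcodeL]))
      (by
        intro i j hij hmem
        have := hdec i j hij
        rw [hcase] at this
        exact of_decide_eq_false this hmem)
    have := hbound (L (e 0))
    omega
  | true =>
    have hmain := core (D := fun u v => D v u) hHEAD (x := fun i => y (e i))
      (y := fun i => x (e i))
      (C := fun i => C (e i)) (X := fun i => Y (e i)) (Y := fun i => X (e i))
      (P := fun i => P (e i)) (P₀ := fun i => P₀ (e i)) (G := H \ G) (T := (T : Set W))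
      (K := (T : Set W) ∩ R (e 0)) (fun i => (hd (e i)).rev)
      (hU.subset (Set.sdiff_subset.trans hH)) hTfin
      (fun i b hb hbG => Set.disjoint_left.1 hHA hbG.1 (hX _ hb))
      (fun i => ⟨(hxy _).1, (hxy _).2.1⟩) (fun i h => h.2 (hxy _).2.2.1)
      (by
        intro u v hu huv
        rcases hHin v u hu.1 huv with h | h
        · by_cases hvG : v ∈ G
          · rcases hGout v u hvG huv with h' | h'
            · exact absurd h' hu.2
            · exact absurd h' (Set.disjoint_left.1 hHT hu.1)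
          · exact Or.inl ⟨h, hvG⟩
        · exact Or.inr h)
      (fun i => code_eq ι (by rw [hcodeR, hcodeR]))
      (by
        intro i j hij hmem
        have h1 := hdec i j hij
        rw [hcase] at h1
        have h2 : y (e j) ∈ L (e i) := of_decide_eq_true h1
        obtain ⟨b, hb, hr⟩ := h2
        obtain ⟨a', ha', hr'⟩ := hmem
        rw [cutArc_rev] at hr'
        have hr'' := rIn_rev.1 hr'
        have hne' : e i ≠ e j := by
          have : e i < e j := hmono _ _ (by simpa using hij)
          exact ne_of_lt this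
        have harc : cutArc D (x (e i)) (y (e i)) (x (e j)) (y (e j)) := by
          refine ⟨(hxy _).2.2.2, ?_⟩
          rintro ⟨h3, h4⟩
          exact hne _ _ hne' (by rw [h3, h4])
        exact (hd (e i)).sep a' ha' b hb ((hr''.tail harc hr.left_mem).trans hr))
    have := hbound (R (e 0))
    omega

end Pool.Agent.H75.GW
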