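import Pool.Agent.H55.GW.Targets1

/-!
# Module FUN: the funnel lemma
-/

set_option autoImplicit false

namespace Pool.Agent.H75.GW

open Pool.Agent.H55.GW

variable {W : Type} {D : W → W → Prop}

theorem chain_rIn {y : W} : ∀ (l : List W) (v : W) (T : Set W), (v :: l).IsChain D →
    (v :: l).getLast? = some y → (∀ w ∈ v :: l, w ∈ T) → RIn D T v y := by
  intro l
  induction l with
  | nil =>
    intro v T _ hl hT
    simp only [List.getLast?_singleton, Option.some.injEq] at hl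
    subst hl
    exact RIn.refl (hT _ (by simp))
  | cons a l ih =>
    intro v T hc hl hT
    have h2 := List.isChain_cons_cons.1 hc
    rw [List.getLast?_cons_cons] at hl
    exact RIn.head h2.1 (hT _ (by simp)) (ih a T h2.2 hl
      (fun w hw => hT w (List.mem_cons_of_mem _ hw)))

/-- from a vertex of a simple path one reaches the end without coming back to the start -/
theorem path_right {l : List W} {x y : W} (h : IsPath D l x y) {v : W} (hv : v ∈ l) :
    RIn D {w | w ∈ l ∧ (w = x → v = x)} v y := by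
  classical
  obtain ⟨l₁, l₂, rfl⟩ := List.append_of_mem hv
  obtain ⟨hc, hn, hh, hl⟩ := h
  refine chain_rIn l₂ v _ (List.IsChain.right_of_append hc) ?_ ?_
  · rw [List.getLast?_append_of_ne_nil _ (by simp)] at hl
    exact hl
  · intro w hw
    refine ⟨by rw [List.mem_append]; exact Or.inr hw, ?_⟩
    rintro rfl
    cases l₁ with
    | nil =>
      simp only [List.nil_append, List.head?_cons, Option.some.injEq] at hh
      exact hh
    | cons a l₁ =>
      simp only [List.cons_append, List.head?_cons, Option.some.injEq] at hh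
      subst hh
      exact absurd rfl ((List.nodup_append.1 hn).2.2 a (by simp) a hw)

/-- a linkage of the size of a separator: every walk meets the separator once -/
theorem lnk_cut {X Y : Set W} {S : Finset W} (hS : Sep D (S : Set W) X Y)
    (h : Lnk D S.card X Y) :
    ∃ (x y f : Fin S.card → W) (T : Fin S.card → Set W),
      (∀ i, x i ∈ X ∧ y i ∈ Y ∧ RIn D (T i) (x i) (f i) ∧ RIn D (T i) (f i) (y i)) ∧
      (∀ i j, i ≠ j → Disjoint (T i) (T j)) ∧ (∀ i, f i ∈ S) ∧
      (∀ z ∈ S, ∃ i, z = f i) ∧ (∀ i, ∀ z ∈ S, z ∈ T i → z = f i) := by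
  classical
  obtain ⟨x, y, T, h1, h2⟩ := h
  have h3 : ∀ i, ∃ z, z ∈ S ∧ RIn D (T i) (x i) z ∧ RIn D (T i) z (y i) := by
    intro i
    rcases (h1 i).2.2.avoid_or (S : Set W) with h | ⟨z, hz, h4, h5⟩
    · exact absurd (h.mono_set fun v hv => hv.2) (hS _ (h1 i).1 _ (h1 i).2.1)
    · exact ⟨z, by simpa using hz, h4.mono_set (by
        rintro v (hv | hv)
        · exact hv.1
        · rw [Set.mem_singleton_iff] at hv
          rw [hv]
          exact h5.left_mem), h5⟩
  choose f hf hf1 hf2 using h3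
  have hinj : Function.Injective f := by
    intro i j hij
    by_contra hne
    exact Set.disjoint_left.1 (h2 i j hne) (hf2 i).left_mem (hij ▸ (hf2 j).left_mem)
  have himg : Finset.univ.image f = S := by
    apply Finset.eq_of_subset_of_card_le
    · intro z hz
      obtain ⟨i, -, rfl⟩ := Finset.mem_image.1 hz
      exact hf i
    · rw [Finset.card_image_of_injective _ hinj]
      simp
  have hsurj : ∀ z ∈ S, ∃ i, z = f i := by
    intro z hz
    rw [← himg] at hz
    obtain ⟨i, -, rfl⟩ := Finset.mem_image.1 hz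
    exact ⟨i, rfl⟩
  refine ⟨x, y, f, T, fun i => ⟨(h1 i).1, (h1 i).2.1, hf1 i, hf2 i⟩, h2, hf, hsurj, ?_⟩
  intro i z hz hzT
  obtain ⟨j, rfl⟩ := hsurj z hz
  by_cases hij : i = j
  · rw [hij]
  · exact absurd (hf2 j).left_mem (Set.disjoint_left.1 (h2 i j hij) hzT)

/-- the abstract core: behind a minimum separator, two disjoint ways -/
theorem funnel_core {D : Vx → Vx → Prop} {snk : Set Vx} {S : Finset Vx}
    (f y : Fin S.card → Vx) (L : Fin S.card → Set Vx)
    (hL : ∀ i, f i ∈ L i ∧ RIn D (L i) (f i) (y i))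
    (hy : ∀ i, y i ∈ snk)
    (hdis : ∀ i j, i ≠ j → Disjoint (L i) (L j))
    (hfS : ∀ i, f i ∈ S) (hsurj : ∀ z ∈ S, ∃ i, z = f i)
    (hone : ∀ i, ∀ z ∈ S, z ∈ L i → z = f i)
    (hback : ∀ i, ∀ v ∈ L i, v ≠ f i → RIn D (S : Set Vx)ᶜ v (y i))
    {p z : Vx} (hpS : p ∉ S) (hsep : Sep D (S : Set Vx) {p} snk)
    (hfan : ∀ z' : Vx, z' ≠ p → ∃ t ∈ snk, RIn D {z'}ᶜ p t) (hz : z ≠ p) :
    ∃ i, RIn D {z}ᶜ p (y i) := by
  classical
  -- the vertex to avoid
  have hz' : ∃ z', z' ≠ p ∧ ((∃ i, z ∈ L i ∧ z' = f i) ∨ ((∀ i, z ∉ L i) ∧ z' = z)) := by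
    by_cases h : ∃ i, z ∈ L i
    · obtain ⟨i, hi⟩ := h
      exact ⟨f i, fun h => hpS (h ▸ hfS i), Or.inl ⟨i, hi, rfl⟩⟩
    · exact ⟨z, hz, Or.inr ⟨fun i hi => h ⟨i, hi⟩, rfl⟩⟩
  obtain ⟨z', hz'p, hz'c⟩ := hz'
  obtain ⟨t, ht, hr⟩ := hfan z' hz'p
  rcases hr.avoid_or ((S : Set Vx) ∪ {z}) with h | ⟨w, hw, h1, h2⟩
  · refine absurd (h.mono_set ?_) (hsep p rfl t ht)
    intro v hv hvS
    exact hv.2 (Or.inl hvS)
  · have hwz' : w ≠ z' := h2.left_mem
    by_cases hwS : w ∈ S
    · -- the walk hits `S` at `w`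
      obtain ⟨j, rfl⟩ := hsurj w hwS
      have hne : f j ≠ z := by
        rintro rfl
        rcases hz'c with ⟨i, hi, rfl⟩ | ⟨hno, rfl⟩
        · exact hwz' (hone i _ hwS hi)
        · exact hwz' rfl
      have hzL : z ∉ L j := by
        rcases hz'c with ⟨i, hi, rfl⟩ | ⟨hno, rfl⟩
        · intro hzj
          by_cases hij : i = j
          · exact hwz' (by rw [hij])
          · exact Set.disjoint_left.1 (hdis i j hij) hi hzj
        · exact hno j
      refine ⟨j, RIn.trans (h1.mono_set ?_) ((hL j).2.mono_set ?_)⟩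
      · rintro v (hv | hv)
        · intro hvz
          exact hv.2 (Or.inr hvz)
        · rw [Set.mem_singleton_iff] at hv
          rw [hv]
          exact hne
      · intro v hv hvz
        rw [Set.mem_singleton_iff] at hvz
        exact hzL (hvz ▸ hv)
    · -- the walk hits `z` first
      have hwz : w = z := by
        rcases hw with hw | hw
        · exact absurd hw hwS
        · exact hw
      subst hwz
      rcases hz'c with ⟨i, hi, rfl⟩ | ⟨hno, rfl⟩
      · refine absurd ?_ (hsep p rfl (y i) (hy i))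
        refine RIn.trans (h1.mono_set ?_) (hback i w hi hwz')
        rintro v (hv | hv)
        · intro hvS
          exact hv.2 (Or.inl hvS)
        · rw [Set.mem_singleton_iff] at hv
          rw [hv]
          exact hwS
      · exact absurd rfl hwz'

/-- **FUN.** -/
theorem fun_ (hMEN : T_MEN) (hKUD : T_KUD) (hFAN : T_FAN) : T_FUN := by
  classical
  intro q hq b
  obtain ⟨ε, hε⟩ := hKUD q b
  refine ⟨ε, ?_⟩
  intro M B R F m col hG hmin X S hX hSep hSmin hSb
  have hRep : F.Rep M := hmin.1.rep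
  have hPM : F.IsPM m := hmin.1.pm
  have hFan : F.Fan m := hFAN M B R F m col hmin
  have hUfin : F.uni.Finite := Frame.uni_finite F
  have hDU : ∀ u v, F.D m u v → u ∈ F.uni ∧ v ∈ F.uni := fun u v h => Frame.D_uni h
  have hsnkU : F.snk m ⊆ F.uni := by
    rintro x ⟨e, he, rfl⟩
    exact Or.inr ⟨e, Frame.base_subset he, rfl⟩
  have hsrcU : F.src m ⊆ F.uni := by
    rintro x ⟨e, he, -, rfl⟩
    exact Or.inr ⟨e, he, rfl⟩
  -- the linkage through `S`
  have hlk : Lnk (F.D m) S.card X (F.snk m) :=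
    hMEN Vx (F.D m) F.uni hUfin hDU X (F.snk m) hX hsnkU S.card hSmin
  obtain ⟨x, y, f, T, h1, h2, hfS, hsurj, hone⟩ := lnk_cut hSep hlk
  have hpath : ∀ i, ∃ l, IsPath (F.D m) l (f i) (y i) ∧ ∀ v ∈ l, v ∈ T i :=
    fun i => (h1 i).2.2.2.exists_path
  choose l hl hlT using hpath
  -- the separator `K`
  by_contra hcon
  push Not at hcon
  set Φ : Set Vx := {x | ∃ p ∈ F.V, F.isP p ∧ ¬ F.Exc p ∧ x = Sum.inr p ∧ x ∉ S ∧
      Sep (F.D m) (S : Set Vx) {x} (F.snk m)} with hΦ
  have hΦU : Φ ⊆ F.uni := by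
    rintro x ⟨p, hp, -, -, rfl, -⟩
    exact Or.inl ⟨p, hp, rfl⟩
  have hlk2 : Lnk (F.D m) (ε + 1) (F.src m) Φ := by
    refine hMEN Vx (F.D m) F.uni hUfin hDU (F.src m) Φ hsrcU hΦU (ε + 1) ?_
    intro K hK
    by_contra hlt
    exact hcon K (by omega) hK
  obtain ⟨a, p, Q, h3, h4⟩ := hlk2
  have hinj := lnk_inj (fun i => (h3 i).2.2) h4
  have hsrc : ∀ i, ∃ e, e ∈ F.E ∧ e ∉ F.base m ∧ a i = Sum.inl e := fun i => by
    obtain ⟨e, he, he', hae⟩ := (h3 i).1
    exact ⟨e, he, he', hae⟩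
  choose e heE heB hae using hsrc
  have heinj : Function.Injective e := by
    intro i j hij
    apply hinj.1
    rw [hae, hae, hij]
  have hsnk : ∀ i, ∃ t, t ∈ F.base m ∧ y i = Sum.inl t := fun i => by
    obtain ⟨t, ht, hyt⟩ := (h1 i).2.1
    exact ⟨t, ht, hyt⟩
  choose t htB hyt using hsnk
  have hA : (Finset.univ.image e).card = ε + 1 := by
    rw [Finset.card_image_of_injective _ heinj]
    simp
  have hY : (Finset.univ.image t).card ≤ b := by
    refine le_trans Finset.card_image_le ?_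
    simpa using hSb
  -- two sources and a vertex
  have hex : ∃ i j : Fin (ε + 1), i ≠ j ∧ ∃ z : Vx, Sep (F.D m) {z} {Sum.inl (e i),
      Sum.inl (e j)} (Sum.inl '' ((Finset.univ.image t : Finset ℕ) : Set ℕ)) := by
    by_contra hno
    have hle := hε M F m hG hRep hPM (Finset.univ.image e) (by
      intro a ha
      obtain ⟨i, -, rfl⟩ := Finset.mem_image.1 ha
      exact ⟨heE i, heB i⟩) (Finset.univ.image t) (by
      intro a ha
      obtain ⟨i, -, rfl⟩ := Finset.mem_image.1 ha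
      exact htB i) hY (by
      intro a ha a' ha' hne S' hS' hsep
      obtain ⟨i, -, rfl⟩ := Finset.mem_image.1 ha
      obtain ⟨j, -, rfl⟩ := Finset.mem_image.1 ha'
      obtain ⟨z, hz⟩ := Finset.card_le_one_iff_subset_singleton.1 hS'
      refine hno ⟨i, j, fun h => hne (by rw [h]), z, hsep.mono ?_ subset_rfl subset_rfl⟩
      intro v hv
      simpa using hz hv)
    omega
  obtain ⟨i, j, hij, z, hsepz⟩ := hex
  -- one of the two walks avoids `z`
  have hk : ∃ k, (k = i ∨ k = j) ∧ z ∉ Q k := by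
    by_cases hzi : z ∈ Q i
    · exact ⟨j, Or.inr rfl, Set.disjoint_left.1 (h4 i j hij) hzi⟩
    · exact ⟨i, Or.inl rfl, hzi⟩
  obtain ⟨k, hkij, hzk⟩ := hk
  obtain ⟨p', hp'V, hp'P, hp'E, hp', hpS, hpsep⟩ := (h3 k).2.1
  have hzp : z ≠ p k := by
    rintro rfl
    exact hzk (h3 k).2.2.right_mem
  have hfan' : ∀ z' : Vx, z' ≠ p k → ∃ t ∈ F.snk m, RIn (F.D m) {z'}ᶜ (p k) t := by
    intro z' hz'
    rcases hFan p' hp'V hp'P with h | h
    · exact absurd h hp'E
    · obtain ⟨t, ht, hr⟩ := h z' (hp' ▸ hz')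
      exact ⟨t, ht, hp' ▸ hr⟩
  obtain ⟨i', hi'⟩ := funnel_core (D := F.D m) (snk := F.snk m) (S := S) f y
    (fun i => {w | w ∈ l i}) (fun i => ⟨(hl i).mem_left, (hl i).rIn⟩) (fun i => (h1 i).2.1)
    (fun i j hij => Set.disjoint_left.2 fun v hv hv' =>
      Set.disjoint_left.1 (h2 i j hij) (hlT i v hv) (hlT j v hv')) hfS hsurj
    (fun i z hz hzL => hone i z hz (hlT i z hzL))
    (by
      intro i v hv hne
      refine (path_right (hl i) hv).mono_set ?_
      rintro w ⟨hw, hwf⟩ hwS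
      exact hne (hwf (hone i w hwS (hlT i w hw))))
    hpS hpsep hfan' hzp
  have hwalk : RIn (F.D m) {z}ᶜ (Sum.inl (e k)) (Sum.inl (t i')) := by
    have h5 : RIn (F.D m) {z}ᶜ (a k) (p k) := (h3 k).2.2.mono_set fun v hv hvz => by
      rw [Set.mem_singleton_iff] at hvz
      exact hzk (hvz ▸ hv)
    have h6 := h5.trans hi'
    rw [hae, hyt] at h6
    exact h6
  refine hsepz (Sum.inl (e k)) ?_ (Sum.inl (t i')) ⟨t i', by simp, rfl⟩ hwalk
  rcases hkij with rfl | rfl
  · exact Or.inl rfl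
  · exact Or.inr rfl

end Pool.Agent.H75.GW
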